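import Pool.Agent.Lib.MP_085bfa_gt.Dim

/-!
# The structural number
-/

set_option autoImplicit false

open Set TopologicalSpace Filter Topology

namespace Pool.Agent.Lib.MP_085bfa_gt

universe u

/-- The class `SM₀` of separable metrizable spaces `Z` with `ind Z = 0`. -/
structure IsSM0 (X : Type u) (σ : TopologicalSpace X) : Prop where
  separable : @SeparableSpace X σ
  metrizable : @MetrizableSpace X σ
  ind_eq_zero : @smallInductiveDimension X σ = 0

/-- The structural number `Sn^𝒜(X, τ)`: the least cardinal `κ` for which there is a (nonempty)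
family `(σ i)_{i ∈ I}`, `|I| = κ`, of extensions of `τ` such that every `(X, σ i)` is in the
class `𝒜` and `τ = ⋂ i, σ i`; it is `⊤` if there is no such family. -/
noncomputable def structuralNumber (𝒜 : ∀ Y : Type u, TopologicalSpace Y → Prop) (X : Type u)
    (τ : TopologicalSpace X) : WithTop Cardinal.{u} :=
  sInf {κ | ∃ (I : Type u) (σ : I → TopologicalSpace X), Nonempty I ∧
    κ = ((Cardinal.mk I : Cardinal.{u}) : WithTop Cardinal.{u}) ∧
    (∀ i, (∀ U : Set X, IsOpen[τ] U → IsOpen[σ i] U) ∧ 𝒜 X (σ i)) ∧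
    ∀ U : Set X, IsOpen[τ] U ↔ ∀ i, IsOpen[σ i] U}

lemma structuralNumber_le_of_bases {X : Type u} [τ : TopologicalSpace X] [T1Space X] [Nonempty X]
    {n : ℕ} {P : Fin (n + 1) → Type*} [∀ c, Countable (P c)] (O : ∀ c, P c → Set X)
    (hO : ∀ c p, IsOpen (O c p))
    (hb : ∀ c x U, IsOpen U → x ∈ U → ∃ p, x ∈ O c p ∧ O c p ⊆ U)
    (hfr : ∀ x, ∃ c, ∀ p, x ∉ frontier (O c p)) :
    structuralNumber IsSM0 X τ ≤ (((n + 1 : ℕ) : Cardinal.{u}) : WithTop Cardinal.{u}) := by
  classical
  let φ : ∀ c, X → P c → Bool := fun c x p => decide (x ∈ O c p)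
  let σ : ULift.{u} (Fin (n + 1)) → TopologicalSpace X := fun c =>
    TopologicalSpace.induced (φ c.down) inferInstance
  have hinj : ∀ c, Function.Injective (φ c) := by
    intro c x y hxy
    by_contra hne
    obtain ⟨p, hxp, hp⟩ := hb c x {y}ᶜ isOpen_compl_singleton hne
    have h1 : φ c x p = φ c y p := by rw [hxy]
    have h2 : y ∈ O c p := by
      simp only [φ, hxp, decide_true] at h1
      exact of_decide_eq_true h1.symm
    exact hp h2 rfl
  have hopen : ∀ c p, IsOpen[σ c] (O c.down p) := by
    intro c p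
    refine isOpen_induced_iff.2 ⟨{f | f p = true}, ?_, ?_⟩
    · have hc : Continuous fun f : P c.down → Bool => f p := continuous_apply p
      exact (isOpen_discrete ({true} : Set Bool)).preimage hc
    · ext x; simp [φ]
  have hle : ∀ c (U : Set X), IsOpen[τ] U → IsOpen[σ c] U := by
    intro c U hU
    refine (@isOpen_iff_forall_mem_open X (σ c) U).2 fun x hx => ?_
    obtain ⟨p, hxp, hp⟩ := hb c.down x U hU hx
    exact ⟨O c.down p, hp, hopen c p, hxp⟩
  have hSM : ∀ c, IsSM0 X (σ c) := by
    intro c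
    let _ := σ c
    have hind : IsInducing (φ c.down) := ⟨rfl⟩
    have hemb : IsEmbedding (φ c.down) := ⟨hind, hinj c.down⟩
    have : SecondCountableTopology X := secondCountableTopology_induced _ _ _
    refine ⟨inferInstance, hemb.metrizableSpace, ?_⟩
    have hbasis : IsTopologicalBasis {s : Set X | IsClopen s} := by
      have h1 : IsTopologicalBasis {s : Set (P c.down → Bool) | IsClopen s} :=
        isTopologicalBasis_isClopen
      have h2 := h1.isInducing hind
      refine h2.of_isOpen_of_subset (fun _ hU => hU.isOpen) ?_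
      rintro _ ⟨U, hU, rfl⟩
      exact IsClopen.preimage hU hind.continuous
    refine smallInductiveDimension_eq 0 (hasSmallInductiveDimensionLT_one_iff.2 hbasis) ?_
    rw [hasSmallInductiveDimensionLT_zero_iff]
    exact not_isEmpty_of_nonempty X
  refine sInf_le_of_le ⟨ULift.{u} (Fin (n + 1)), σ, ⟨⟨0⟩⟩, rfl, fun c => ⟨hle c, hSM c⟩,
    fun U => ⟨fun hU c => hle c U hU, fun hU => ?_⟩⟩ (by simp)
  rw [isOpen_iff_mem_nhds]
  intro x hx
  obtain ⟨c, hc⟩ := hfr x
  have h1 : IsOpen[σ ⟨c⟩] U := hU ⟨c⟩
  obtain ⟨V, hV, rfl⟩ := isOpen_induced_iff.1 h1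
  have hcont : ContinuousAt (φ c) x := by
    rw [continuousAt_pi]
    intro p
    have hfront := hc p
    by_cases hxp : x ∈ O c p
    · have h2 : (fun y => φ c y p) =ᶠ[𝓝 x] fun _ => true := by
        filter_upwards [(hO c p).mem_nhds hxp] with y hy
        simpa [φ] using hy
      exact h2.continuousAt
    · have h3 : x ∉ closure (O c p) := by
        intro h
        refine hfront ?_
        rw [(hO c p).frontier_eq]
        exact ⟨h, hxp⟩
      have h2 : (fun y => φ c y p) =ᶠ[𝓝 x] fun _ => false := by
        filter_upwards [isClosed_closure.isOpen_compl.mem_nhds h3] with y hy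
        have : y ∉ O c p := fun h => hy (subset_closure h)
        simpa [φ] using this
      exact h2.continuousAt
  exact hcont.preimage_mem_nhds (hV.mem_nhds hx)

end Pool.Agent.Lib.MP_085bfa_gt
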