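import Mathlib

/-!
# Covering dimension and bases whose boundaries have small order

We define the covering dimension and show that in a separable metrizable space of covering
dimension at most `n` there are `n + 1` countable bases such that no point lies on boundaries of
members of all of them.
-/

set_option autoImplicit false

open Set TopologicalSpace Filter Topology

namespace Pool.Agent.Lib.MP_085bfa_gt

universe u

/-- `CoveringDimensionLT X i` says that `dim X < i`, i.e. `dim X ≤ i - 1`: every finite open cover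
of `X` has a finite open refinement which covers `X` and such that every point of `X` lies in at
most `i` members of the refinement. -/
def CoveringDimensionLT (X : Type u) [TopologicalSpace X] (i : ℕ) : Prop :=
  ∀ 𝒰 : Set (Set X), 𝒰.Finite → (∀ U ∈ 𝒰, IsOpen U) → ⋃₀ 𝒰 = univ →
    ∃ 𝒱 : Set (Set X), 𝒱.Finite ∧ (∀ V ∈ 𝒱, IsOpen V) ∧ ⋃₀ 𝒱 = univ ∧
      (∀ V ∈ 𝒱, ∃ U ∈ 𝒰, V ⊆ U) ∧ ∀ x : X, {V ∈ 𝒱 | x ∈ V}.ncard ≤ i

/-- The covering dimension `dim X`, with values in `{-1, 0, 1, …, ∞}` (`⊥` stands for `-1`). -/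
noncomputable def coveringDimension (X : Type u) [TopologicalSpace X] : WithBot ℕ∞ :=
  sInf {n : WithBot ℕ∞ | ∀ i : ℕ, n < i → CoveringDimensionLT X i}

lemma CoveringDimensionLT.of_coveringDimension_lt {X : Type u} [TopologicalSpace X] {i : ℕ}
    (h : coveringDimension X < i) : CoveringDimensionLT X i := by
  contrapose! h
  simp only [coveringDimension, le_sInf_iff]
  intro a ha
  by_contra hlt
  exact h (ha i (not_le.1 hlt))

/-! ### Approximation by maps into low dimensional polyhedra -/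

section approx

variable {X : Type u} [TopologicalSpace X] [NormalSpace X]

/-- Approximation of a map into the cube by a map each value of which lies in the convex hull of
at most `n + 1` of finitely many points. -/
lemma exists_approx {n m : ℕ} (hX : CoveringDimensionLT X (n + 1))
    (f : X → Fin m → ℝ) (hf : Continuous f) (hf01 : ∀ x j, f x j ∈ Icc (0 : ℝ) 1)
    (ε : ℝ) (hε : 0 < ε) :
    ∃ (κ : Type u) (_ : Finite κ) (v : κ → Fin m → ℝ) (g : X → Fin m → ℝ),
      Continuous g ∧ (∀ x, dist (g x) (f x) ≤ ε) ∧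
      ∀ x, ∃ S : Finset κ, S.card ≤ n + 1 ∧ g x ∈ convexHull ℝ (v '' (S : Set κ)) := by
  classical
  -- a finite cover of the cube by small balls
  have hcpt : IsCompact (Set.pi univ fun _ : Fin m => Icc (0 : ℝ) 1) :=
    isCompact_univ_pi fun _ => isCompact_Icc
  obtain ⟨t, ht⟩ : ∃ t : Finset (Fin m → ℝ),
      (Set.pi univ fun _ : Fin m => Icc (0 : ℝ) 1) ⊆ ⋃ c ∈ t, Metric.ball c (ε / 2) := by
    obtain ⟨t, _, ht⟩ := hcpt.elim_nhds_subcover (fun c => Metric.ball c (ε / 2))
      fun c _ => Metric.ball_mem_nhds c (half_pos hε)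
    exact ⟨t, ht⟩
  let 𝒰 : Set (Set X) := (fun c => f ⁻¹' Metric.ball c (ε / 2)) '' (t : Set (Fin m → ℝ))
  obtain ⟨𝒱, h𝒱fin, h𝒱o, h𝒱c, h𝒱r, h𝒱ord⟩ := hX 𝒰 (t.finite_toSet.image _)
    (by rintro _ ⟨c, _, rfl⟩; exact Metric.isOpen_ball.preimage hf)
    (by
      refine eq_univ_of_forall fun x => ?_
      have hx : f x ∈ Set.pi univ fun _ : Fin m => Icc (0 : ℝ) 1 := fun j _ => hf01 x j
      obtain ⟨c, hc, hxc⟩ := mem_iUnion₂.1 (ht hx)
      exact ⟨_, ⟨c, hc, rfl⟩, hxc⟩)
  have : Finite 𝒱 := h𝒱fin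
  obtain ⟨ρ, hρ⟩ := PartitionOfUnity.exists_isSubordinate_of_locallyFinite (X := X)
    (s := univ) isClosed_univ (fun V : 𝒱 => (V : Set X)) (fun V => h𝒱o V V.2)
    (locallyFinite_of_finite _) (by
      rw [← h𝒱c, sUnion_eq_iUnion])
  -- choose points in the members of the cover
  let v : 𝒱 → Fin m → ℝ := fun V => if h : (V : Set X).Nonempty then f h.some else 0
  have hvdist : ∀ (V : 𝒱) (x : X), x ∈ (V : Set X) → dist (v V) (f x) ≤ ε := by
    intro V x hx
    have hne : (V : Set X).Nonempty := ⟨x, hx⟩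
    obtain ⟨_, ⟨c, _, rfl⟩, hVc⟩ := h𝒱r V V.2
    have h1 : f hne.some ∈ Metric.ball c (ε / 2) := hVc hne.some_mem
    have h2 : f x ∈ Metric.ball c (ε / 2) := hVc hx
    have h3 : v V = f hne.some := by simp only [v, dif_pos hne]
    rw [h3]
    calc dist (f hne.some) (f x) ≤ dist (f hne.some) c + dist c (f x) := dist_triangle _ _ _
      _ ≤ ε / 2 + ε / 2 := by
        refine add_le_add (le_of_lt h1) ?_
        rw [dist_comm]; exact le_of_lt h2
      _ = ε := by ring
  have : Fintype 𝒱 := Fintype.ofFinite 𝒱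
  have hsum : ∀ x, ∑ V : 𝒱, ρ V x = 1 := by
    intro x
    have := ρ.sum_eq_one (mem_univ x)
    rwa [finsum_eq_sum_of_fintype] at this
  refine ⟨𝒱, inferInstance, v, fun x => ∑ V : 𝒱, ρ V x • v V, ?_, ?_, ?_⟩
  · exact continuous_finsetSum _ fun V _ => (ρ V).continuous.smul continuous_const
  · intro x
    have h1 : f x = ∑ V : 𝒱, ρ V x • f x := by
      rw [← Finset.sum_smul, hsum, one_smul]
    rw [dist_eq_norm]
    have h2 : (∑ V : 𝒱, ρ V x • v V) - f x = ∑ V : 𝒱, ρ V x • (v V - f x) := by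
      conv_lhs => rw [h1]
      rw [← Finset.sum_sub_distrib]
      exact Finset.sum_congr rfl fun V _ => by rw [smul_sub]
    rw [h2]
    calc ‖∑ V : 𝒱, ρ V x • (v V - f x)‖ ≤ ∑ V : 𝒱, ‖ρ V x • (v V - f x)‖ := norm_sum_le _ _
      _ ≤ ∑ V : 𝒱, ρ V x * ε := by
        refine Finset.sum_le_sum fun V _ => ?_
        rw [norm_smul, Real.norm_of_nonneg (ρ.nonneg V x)]
        by_cases hx : ρ V x = 0
        · rw [hx]; simp
        · have hxV : x ∈ (V : Set X) := hρ V (subset_tsupport _ hx)
          have := hvdist V x hxV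
          rw [dist_eq_norm] at this
          exact mul_le_mul_of_nonneg_left this (ρ.nonneg V x)
      _ = ε := by rw [← Finset.sum_mul, hsum, one_mul]
  · intro x
    refine ⟨Finset.univ.filter fun V : 𝒱 => ρ V x ≠ 0, ?_, ?_⟩
    · have h1 : ((Finset.univ.filter fun V : 𝒱 => ρ V x ≠ 0) : Set 𝒱) ⊆
          {V : 𝒱 | x ∈ (V : Set X)} := by
        intro V hV
        have hV' : ρ V x ≠ 0 := by simpa using hV
        exact hρ V (subset_tsupport _ hV')
      have h2 : ({V : 𝒱 | x ∈ (V : Set X)}).ncard = {V ∈ 𝒱 | x ∈ V}.ncard := by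
        rw [← ncard_image_of_injective _ Subtype.val_injective]
        congr 1
        ext V
        simp [and_comm]
      have h3 := ncard_le_ncard h1 (Set.toFinite _)
      rw [ncard_coe_finset, h2] at h3
      exact h3.trans (h𝒱ord x)
    · have h1 : (∑ V : 𝒱, ρ V x • v V)
          = ∑ V ∈ Finset.univ.filter (fun V : 𝒱 => ρ V x ≠ 0), ρ V x • v V := by
        rw [Finset.sum_filter]
        refine Finset.sum_congr rfl fun V _ => ?_
        by_cases h : ρ V x = 0
        · simp [h]
        · simp [h]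
      show (∑ V : 𝒱, ρ V x • v V) ∈ _
      rw [h1]
      refine (convex_convexHull ℝ _).sum_mem (fun V _ => ρ.nonneg V x) ?_ fun V hV => ?_
      · have h2 := hsum x
        rw [← h2, Finset.sum_filter]
        refine Finset.sum_congr rfl fun V _ => ?_
        by_cases h : ρ V x = 0
        · simp [h]
        · simp [h]
      · exact subset_convexHull ℝ _ ⟨V, hV, rfl⟩

/-- In the open cube there is a point all of whose `n + 1`-coordinate projections avoid the
convex hulls of the projections of all sets of at most `n + 1` of finitely many given points. -/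
lemma exists_generic {κ : Type u} [Finite κ] {n m : ℕ} (v : κ → Fin m → ℝ) :
    ∃ c : Fin m → ℝ, (∀ j, c j ∈ Ioo (3 / 8 : ℝ) (5 / 8)) ∧
      ∀ (I : Finset (Fin m)) (S : Finset κ), I.card = n + 1 → S.card ≤ n + 1 →
        ∀ y ∈ convexHull ℝ (v '' (S : Set κ)), ∃ j ∈ I, y j ≠ c j := by
  classical
  have := Fintype.ofFinite κ
  -- the projection to the coordinates in `I`
  let π : (I : Finset (Fin m)) → (Fin m → ℝ) →ₗ[ℝ] (I → ℝ) := fun I =>
    LinearMap.funLeft ℝ ℝ (fun i : I => (i : Fin m))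
  have hπs : ∀ I, Function.Surjective (π I) := fun I =>
    LinearMap.funLeft_surjective_of_injective ℝ ℝ _ Subtype.val_injective
  -- the bad affine subspaces
  let H : Finset (Fin m) × Finset κ → AffineSubspace ℝ (Fin m → ℝ) := fun p =>
    (affineSpan ℝ ((fun y => π p.1 y) '' (v '' (p.2 : Set κ)))).comap (π p.1).toAffineMap
  have hH : ∀ p : Finset (Fin m) × Finset κ, p.1.card = n + 1 → p.2.card ≤ n + 1 →
      MeasureTheory.volume (H p : Set (Fin m → ℝ)) = 0 := by
    rintro ⟨I, S⟩ hI hS
    change I.card = n + 1 at hI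
    change S.card ≤ n + 1 at hS
    refine MeasureTheory.Measure.addHaar_affineSubspace _ _ fun htop => ?_
    -- then the affine span is everything, too large a dimension
    have h1 : affineSpan ℝ ((fun y => π I y) '' (v '' (S : Set κ))) = ⊤ := by
      refine eq_top_iff.2 fun z _ => ?_
      obtain ⟨y, hy⟩ := hπs I z
      have : y ∈ H (I, S) := by rw [htop]; trivial
      have h2 : (π I).toAffineMap y ∈ affineSpan ℝ ((fun y => π I y) '' (v '' (S : Set κ))) :=
        AffineSubspace.mem_comap.1 this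
      have h3 : (π I).toAffineMap y = z := hy
      rwa [h3] at h2
    have himg : ((fun y => π I y) '' (v '' (S : Set κ))) =
        ((S.image fun k => π I (v k) : Finset (I → ℝ)) : Set (I → ℝ)) := by
      rw [image_image, Finset.coe_image]
    rw [himg] at h1
    have h4 : vectorSpan ℝ ((S.image fun k => π I (v k) : Finset (I → ℝ)) : Set (I → ℝ)) = ⊤ := by
      rw [← direction_affineSpan, h1, AffineSubspace.direction_top]
    by_cases hSe : S.Nonempty
    · obtain ⟨d, hd⟩ : ∃ d, (S.image fun k => π I (v k)).card = d + 1 := by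
        have : 0 < (S.image fun k => π I (v k)).card :=
          Finset.card_pos.2 (hSe.image _)
        exact ⟨_, (Nat.succ_pred_eq_of_pos this).symm⟩
      have h5 := finrank_vectorSpan_image_finset_le ℝ (id : (I → ℝ) → (I → ℝ))
        (S.image fun k => π I (v k)) hd
      rw [Finset.image_id, h4, finrank_top, Module.finrank_fintype_fun_eq_card,
        Fintype.card_coe, hI] at h5
      have h6 := Finset.card_image_le (s := S) (f := fun k => π I (v k))
      omega
    · rw [Finset.not_nonempty_iff_eq_empty] at hSe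
      subst hSe
      have h5 : Module.finrank ℝ (⊤ : Submodule ℝ (I → ℝ)) = n + 1 := by
        rw [finrank_top, Module.finrank_fintype_fun_eq_card, Fintype.card_coe, hI]
      rw [← h4, Finset.image_empty, Finset.coe_empty, vectorSpan_empty, finrank_bot] at h5
      omega
  -- the union of the bad subspaces has measure zero
  have hnull : MeasureTheory.volume (⋃ p ∈ {p : Finset (Fin m) × Finset κ |
      p.1.card = n + 1 ∧ p.2.card ≤ n + 1}, (H p : Set (Fin m → ℝ))) = 0 := by
    refine (MeasureTheory.measure_biUnion_null_iff (Set.to_countable _)).2 fun p hp => ?_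
    exact hH p hp.1 hp.2
  have hpos : 0 < MeasureTheory.volume (Set.pi univ fun _ : Fin m => Ioo (3 / 8 : ℝ) (5 / 8)) := by
    refine IsOpen.measure_pos _ (isOpen_set_pi finite_univ fun _ _ => isOpen_Ioo) ?_
    exact ⟨fun _ => 1 / 2, fun _ _ => by constructor <;> norm_num⟩
  obtain ⟨c, hc, hcH⟩ : ∃ c ∈ (Set.pi univ fun _ : Fin m => Ioo (3 / 8 : ℝ) (5 / 8)),
      c ∉ ⋃ p ∈ {p : Finset (Fin m) × Finset κ |
        p.1.card = n + 1 ∧ p.2.card ≤ n + 1}, (H p : Set (Fin m → ℝ)) := by
    by_contra hcon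
    push Not at hcon
    have : MeasureTheory.volume (Set.pi univ fun _ : Fin m => Ioo (3 / 8 : ℝ) (5 / 8)) ≤ 0 := by
      rw [← hnull]
      exact MeasureTheory.measure_mono hcon
    exact absurd this (not_le.2 hpos)
  refine ⟨c, fun j => hc j (mem_univ _), fun I S hI hS y hy => ?_⟩
  by_contra hcon
  push Not at hcon
  refine hcH (mem_iUnion₂.2 ⟨(I, S), ⟨hI, hS⟩, ?_⟩)
  show c ∈ H (I, S)
  refine AffineSubspace.mem_comap.2 ?_
  have h1 : (π I).toAffineMap c = π I y := by
    funext i
    exact (hcon i i.2).symm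
  rw [h1]
  refine convexHull_subset_affineSpan _ ?_
  have h2 : (fun y => π I y) '' convexHull ℝ (v '' (S : Set κ)) =
      convexHull ℝ ((fun y => π I y) '' (v '' (S : Set κ))) :=
    (π I).image_convexHull _
  rw [← h2]
  exact ⟨y, hy, rfl⟩

/-- The finite stage: finitely many pairs closed set inside open set can be tightened so that
the remaining gaps have order at most `n`. -/
lemma finite_stage {n m : ℕ} (hX : CoveringDimensionLT X (n + 1)) (E G : Fin m → Set X)
    (hE : ∀ j, IsClosed (E j)) (hG : ∀ j, IsOpen (G j)) (hEG : ∀ j, E j ⊆ G j) :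
    ∃ E' G' : Fin m → Set X, (∀ j, IsClosed (E' j)) ∧ (∀ j, IsOpen (G' j)) ∧
      (∀ j, E j ⊆ interior (E' j)) ∧ (∀ j, E' j ⊆ G' j) ∧ (∀ j, closure (G' j) ⊆ G j) ∧
      ∀ I : Finset (Fin m), I.card = n + 1 →
        ∀ x, ∃ j ∈ I, x ∉ closure (G' j) \ interior (E' j) := by
  classical
  have hf : ∀ j, ∃ f : C(X, ℝ), EqOn f 0 (E j) ∧ EqOn f 1 (G j)ᶜ ∧ ∀ x, f x ∈ Icc (0 : ℝ) 1 :=
    fun j => exists_continuous_zero_one_of_isClosed (hE j) (hG j).isClosed_compl
      (disjoint_compl_right_iff_subset.2 (hEG j))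
  choose f hf0 hf1 hf01 using hf
  obtain ⟨κ, hκ, v, g, hg, hgf, hgS⟩ := exists_approx hX (fun x j => f j x)
    (continuous_pi fun j => (f j).continuous) (fun x j => hf01 j x) (1 / 8) (by norm_num)
  obtain ⟨c, hc, hcS⟩ := exists_generic (n := n) v
  have := Fintype.ofFinite κ
  have hδ : ∀ p : Finset (Fin m) × Finset κ, ∃ δ > (0 : ℝ), p.1.card = n + 1 → p.2.card ≤ n + 1 →
      ∀ y ∈ convexHull ℝ (v '' (p.2 : Set κ)), ∃ j ∈ p.1, δ < |y j - c j| := by
    rintro ⟨I, S⟩
    by_cases hI : I.card = n + 1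
    swap
    · exact ⟨1, one_pos, fun h => absurd h hI⟩
    by_cases hS : S.card ≤ n + 1
    swap
    · exact ⟨1, one_pos, fun _ h => absurd h hS⟩
    rcases (convexHull ℝ (v '' (S : Set κ))).eq_empty_or_nonempty with hne | hne
    · refine ⟨1, one_pos, fun _ _ y hy => ?_⟩
      change y ∈ convexHull ℝ (v '' (S : Set κ)) at hy
      rw [hne] at hy
      exact absurd hy (notMem_empty _)
    have hcpt : IsCompact (convexHull ℝ (v '' (S : Set κ))) :=
      Set.Finite.isCompact_convexHull (𝕜 := ℝ) (S.finite_toSet.image v)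
    have hcont : Continuous fun y : Fin m → ℝ => ∑ j ∈ I, |y j - c j| := by fun_prop
    obtain ⟨y₀, hy₀, hmin⟩ := hcpt.exists_isMinOn hne hcont.continuousOn
    have hpos : 0 < ∑ j ∈ I, |y₀ j - c j| := by
      obtain ⟨j, hj, hne⟩ := hcS I S hI hS y₀ hy₀
      exact Finset.sum_pos' (fun i _ => abs_nonneg _)
        ⟨j, hj, abs_pos.2 (sub_ne_zero.2 hne)⟩
    refine ⟨(∑ j ∈ I, |y₀ j - c j|) / (n + 2), by positivity, fun _ _ y hy => ?_⟩
    by_contra hcon
    push Not at hcon
    have h1 : ∑ j ∈ I, |y j - c j| ≤ I.card • ((∑ j ∈ I, |y₀ j - c j|) / (n + 2)) :=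
      Finset.sum_le_card_nsmul _ _ _ hcon
    rw [hI, nsmul_eq_mul] at h1
    have h2 : ∑ j ∈ I, |y₀ j - c j| ≤ ∑ j ∈ I, |y j - c j| := hmin hy
    have h3 : ((n + 1 : ℕ) : ℝ) * ((∑ j ∈ I, |y₀ j - c j|) / (n + 2)) <
        ∑ j ∈ I, |y₀ j - c j| := by
      rw [mul_div_assoc', div_lt_iff₀ (by positivity)]
      push_cast
      nlinarith
    linarith
  choose δ' hδ'0 hδ' using hδ
  obtain ⟨δ, hδ0, hδ8, hδle⟩ : ∃ δ > (0 : ℝ), δ ≤ 1 / 8 ∧ ∀ p, δ ≤ δ' p := by
    have hne : (Finset.univ : Finset (Finset (Fin m) × Finset κ)).Nonempty :=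
      ⟨(∅, ∅), Finset.mem_univ _⟩
    refine ⟨min (1 / 8) (Finset.univ.inf' hne δ'), ?_, min_le_left _ _,
      fun p => (min_le_right _ _).trans (Finset.inf'_le _ (Finset.mem_univ p))⟩
    exact lt_min (by norm_num) ((Finset.lt_inf'_iff hne).2 fun p _ => hδ'0 p)
  have hgj : ∀ j, Continuous fun x => g x j := fun j => (continuous_apply j).comp hg
  have hgfj : ∀ x j, |g x j - f j x| ≤ 1 / 8 := by
    intro x j
    have h1 := dist_le_pi_dist (g x) (fun j => f j x) j
    rw [Real.dist_eq] at h1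
    exact h1.trans (hgf x)
  refine ⟨fun j => {x | g x j ≤ c j - δ / 2}, fun j => {x | g x j < c j + δ},
    fun j => isClosed_le (hgj j) continuous_const, fun j => isOpen_lt (hgj j) continuous_const,
    fun j x hx => ?_, fun j x hx => ?_, fun j x hx => ?_, fun I hI x => ?_⟩
  · have h1 : {x | g x j < c j - δ / 2} ⊆ interior {x | g x j ≤ c j - δ / 2} :=
      interior_maximal (fun y (hy : g y j < c j - δ / 2) => le_of_lt hy)
        (isOpen_lt (hgj j) continuous_const)
    refine h1 ?_
    have h2 : f j x = 0 := hf0 j hx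
    have h3 := hgfj x j
    rw [h2, sub_zero] at h3
    have h4 := (abs_le.1 h3).2
    have h5 := (hc j).1
    show g x j < c j - δ / 2
    linarith
  · have hx' : g x j ≤ c j - δ / 2 := hx
    show g x j < c j + δ
    linarith
  · have h1 : closure {x | g x j < c j + δ} ⊆ {x | g x j ≤ c j + δ} :=
      closure_minimal (fun y (hy : g y j < c j + δ) => le_of_lt hy)
        (isClosed_le (hgj j) continuous_const)
    have h2 : g x j ≤ c j + δ := h1 hx
    by_contra hxG
    have h3 : f j x = 1 := hf1 j hxG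
    have h4 := (abs_le.1 (hgfj x j)).1
    rw [h3] at h4
    have h5 := (hc j).2
    linarith
  · obtain ⟨S, hS, hxS⟩ := hgS x
    obtain ⟨j, hj, hlt⟩ := hδ' (I, S) hI hS (g x) hxS
    refine ⟨j, hj, fun hx => ?_⟩
    have h1 : closure {x | g x j < c j + δ} ⊆ {x | g x j ≤ c j + δ} :=
      closure_minimal (fun y (hy : g y j < c j + δ) => le_of_lt hy)
        (isClosed_le (hgj j) continuous_const)
    have h2 : g x j ≤ c j + δ := h1 hx.1
    have h3 : ¬ g x j < c j - δ / 2 := by
      intro h
      refine hx.2 ?_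
      exact interior_maximal (fun y (hy : g y j < c j - δ / 2) => le_of_lt hy)
        (isOpen_lt (hgj j) continuous_const) h
    have h4 : |g x j - c j| ≤ δ := by
      rw [abs_le]
      constructor <;> linarith
    exact absurd (h4.trans (hδle _)) (not_le.2 hlt)

end approx

/-! ### Passing to infinitely many pairs -/

section sequence

variable {X : Type u} [TopologicalSpace X] [NormalSpace X]

/-- A state of the construction: closed sets `E k` inside open sets `G k`. -/
structure State (X : Type u) [TopologicalSpace X] where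
  /-- the closed sets -/
  E : ℕ → Set X
  /-- the open sets -/
  G : ℕ → Set X
  closed : ∀ k, IsClosed (E k)
  opens : ∀ k, IsOpen (G k)
  sub : ∀ k, E k ⊆ G k

lemma exists_step {n : ℕ} (hX : CoveringDimensionLT X (n + 1)) (m : ℕ) (s : State X) :
    ∃ t : State X, (∀ k, s.E k ⊆ t.E k) ∧ (∀ k, t.G k ⊆ s.G k) ∧
      (∀ k, k ≤ m → s.E k ⊆ interior (t.E k)) ∧ (∀ k, k ≤ m → closure (t.G k) ⊆ s.G k) ∧
      ∀ I : Finset ℕ, (∀ k ∈ I, k ≤ m) → I.card = n + 1 →
        ∀ x, ∃ k ∈ I, x ∉ closure (t.G k) \ interior (t.E k) := by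
  classical
  obtain ⟨E', G', hE', hG', hEE, hEG, hGG, hord⟩ := finite_stage hX
    (fun j : Fin (m + 1) => s.E j) (fun j : Fin (m + 1) => s.G j)
    (fun j => s.closed j) (fun j => s.opens j) (fun j => s.sub j)
  refine ⟨⟨fun k => if h : k < m + 1 then E' ⟨k, h⟩ else s.E k,
    fun k => if h : k < m + 1 then G' ⟨k, h⟩ else s.G k, ?_, ?_, ?_⟩, ?_, ?_, ?_, ?_, ?_⟩
  · intro k
    by_cases h : k < m + 1
    · simp only [h, dif_pos]; exact hE' _
    · simp only [h, dif_neg, not_false_eq_true]; exact s.closed k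
  · intro k
    by_cases h : k < m + 1
    · simp only [h, dif_pos]; exact hG' _
    · simp only [h, dif_neg, not_false_eq_true]; exact s.opens k
  · intro k
    by_cases h : k < m + 1
    · simp only [h, dif_pos]; exact hEG _
    · simp only [h, dif_neg, not_false_eq_true]; exact s.sub k
  · intro k
    by_cases h : k < m + 1
    · simp only [h, dif_pos]; exact (hEE ⟨k, h⟩).trans interior_subset
    · simp only [h, dif_neg, not_false_eq_true]; exact subset_rfl
  · intro k
    by_cases h : k < m + 1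
    · simp only [h, dif_pos]; exact subset_closure.trans (hGG ⟨k, h⟩)
    · simp only [h, dif_neg, not_false_eq_true]; exact subset_rfl
  · intro k hk
    have h : k < m + 1 := Nat.lt_succ_of_le hk
    simp only [h, dif_pos]; exact hEE ⟨k, h⟩
  · intro k hk
    have h : k < m + 1 := Nat.lt_succ_of_le hk
    simp only [h, dif_pos]; exact hGG ⟨k, h⟩
  · intro I hI hcard x
    obtain ⟨j, hj, hjx⟩ := hord (Finset.univ.filter fun j : Fin (m + 1) => (j : ℕ) ∈ I) (by
      rw [← hcard]
      refine Finset.card_bij (fun j _ => (j : ℕ)) ?_ ?_ ?_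
      · intro j hj; simpa using hj
      · intro a _ b _ hab; exact Fin.ext hab
      · intro b hb
        exact ⟨⟨b, Nat.lt_succ_of_le (hI b hb)⟩, by simpa using hb, rfl⟩) x
    refine ⟨j, by simpa using hj, ?_⟩
    have h : (j : ℕ) < m + 1 := j.2
    simp only [h, dif_pos]
    exact hjx

/-- In a normal space of covering dimension at most `n`, given countably many pairs of a closed set
inside an open set, we can interpolate open sets such that the frontiers of any `n + 1` of them have
empty intersection. -/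
lemma exists_sequence {n : ℕ} (hX : CoveringDimensionLT X (n + 1)) (F U : ℕ → Set X)
    (hF : ∀ k, IsClosed (F k)) (hU : ∀ k, IsOpen (U k)) (hFU : ∀ k, F k ⊆ U k) :
    ∃ O : ℕ → Set X, (∀ k, IsOpen (O k)) ∧ (∀ k, F k ⊆ O k) ∧ (∀ k, closure (O k) ⊆ U k) ∧
      ∀ I : Finset ℕ, I.card = n + 1 → ∀ x, ∃ k ∈ I, x ∉ frontier (O k) := by
  classical
  choose step h1 h2 h3 h4 h5 using fun m s => exists_step hX m s
  let s : ℕ → State X := fun m => Nat.rec ⟨F, U, hF, hU, hFU⟩ (fun m s => step m s) m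
  have hs0 : s 0 = ⟨F, U, hF, hU, hFU⟩ := rfl
  have hs : ∀ m, s (m + 1) = step m (s m) := fun m => rfl
  have hEmono : ∀ k, Monotone fun m => (s m).E k := fun k =>
    monotone_nat_of_le_succ fun m => by rw [hs]; exact h1 m (s m) k
  have hGanti : ∀ k, Antitone fun m => (s m).G k := fun k =>
    antitone_nat_of_succ_le fun m => by rw [hs]; exact h2 m (s m) k
  have hEG : ∀ k m m', (s m).E k ⊆ (s m').G k := fun k m m' =>
    (hEmono k (le_max_left m m')).trans
      (((s (max m m')).sub k).trans (hGanti k (le_max_right m m')))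
  have hO : ∀ k m, (⋃ m, interior ((s m).E k)) ⊆ (s m).G k := fun k m =>
    iUnion_subset fun m' => interior_subset.trans (hEG k m' m)
  refine ⟨fun k => ⋃ m, interior ((s m).E k), fun k => isOpen_iUnion fun m => isOpen_interior,
    fun k => ?_, fun k => ?_, fun I hI x => ?_⟩
  · have h : (s k).E k ⊆ interior ((s (k + 1)).E k) := by
      rw [hs]; exact h3 k (s k) k le_rfl
    have h0 : F k ⊆ (s k).E k := hEmono k (Nat.zero_le k)
    exact h0.trans (h.trans (subset_iUnion (fun m => interior ((s m).E k)) (k + 1)))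
  · have h : closure ((s (k + 1)).G k) ⊆ (s k).G k := by
      rw [hs]; exact h4 k (s k) k le_rfl
    have h0 : (s k).G k ⊆ U k := hGanti k (Nat.zero_le k)
    exact (closure_mono (hO k (k + 1))).trans (h.trans h0)
  · set m := I.sup id with hm
    have hI' : ∀ k ∈ I, k ≤ m := fun k hk => Finset.le_sup (f := id) hk
    obtain ⟨k, hk, hkx⟩ := h5 m (s m) I hI' hI x
    refine ⟨k, hk, fun hx => hkx ?_⟩
    rw [← hs]
    refine ⟨closure_mono (hO k (m + 1)) (frontier_subset_closure hx), fun hx' => ?_⟩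
    have hopen : IsOpen (⋃ m, interior ((s m).E k)) := isOpen_iUnion fun m => isOpen_interior
    rw [hopen.frontier_eq] at hx
    exact hx.2 (mem_iUnion.2 ⟨m + 1, hx'⟩)

/-- The same for pairs indexed by a countable type. -/
lemma exists_countable {n : ℕ} (hX : CoveringDimensionLT X (n + 1)) {ι : Type*} [Countable ι]
    (F U : ι → Set X) (hF : ∀ k, IsClosed (F k)) (hU : ∀ k, IsOpen (U k)) (hFU : ∀ k, F k ⊆ U k) :
    ∃ O : ι → Set X, (∀ k, IsOpen (O k)) ∧ (∀ k, F k ⊆ O k) ∧ (∀ k, closure (O k) ⊆ U k) ∧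
      ∀ I : Finset ι, I.card = n + 1 → ∀ x, ∃ k ∈ I, x ∉ frontier (O k) := by
  classical
  obtain ⟨e, he⟩ := Countable.exists_injective_nat ι
  have hext : ∀ (A : ι → Set X) (k : ℕ), (∃ i, e i = k ∧ Function.extend e A (fun _ => ∅) k = A i)
      ∨ Function.extend e A (fun _ => ∅) k = ∅ ∧ ∀ i, e i ≠ k := by
    intro A k
    by_cases h : ∃ i, e i = k
    · obtain ⟨i, rfl⟩ := h
      exact Or.inl ⟨i, rfl, he.extend_apply _ _ _⟩
    · right
      exact ⟨by rw [Function.extend_apply' _ _ _ h], fun i hi => h ⟨i, hi⟩⟩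
  obtain ⟨O, hO, hFO, hOU, hord⟩ := exists_sequence hX (Function.extend e F fun _ => ∅)
    (Function.extend e U fun _ => ∅)
    (fun k => by
      rcases hext F k with ⟨i, _, h⟩ | ⟨h, _⟩
      · rw [h]; exact hF i
      · rw [h]; exact isClosed_empty)
    (fun k => by
      rcases hext U k with ⟨i, _, h⟩ | ⟨h, _⟩
      · rw [h]; exact hU i
      · rw [h]; exact isOpen_empty)
    (fun k => by
      rcases hext F k with ⟨i, hi, h⟩ | ⟨h, _⟩
      · subst hi
        rw [h, he.extend_apply]; exact hFU i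
      · rw [h]; exact empty_subset _)
  refine ⟨fun i => O (e i), fun i => hO _, fun i => ?_, fun i => ?_, fun I hI x => ?_⟩
  · have := hFO (e i)
    rwa [he.extend_apply] at this
  · have := hOU (e i)
    rwa [he.extend_apply] at this
  · obtain ⟨k, hk, hkx⟩ := hord (I.map ⟨e, he⟩) (by rw [Finset.card_map, hI]) x
    obtain ⟨i, hi, rfl⟩ := Finset.mem_map.1 hk
    exact ⟨i, hi, hkx⟩

end sequence

end Pool.Agent.Lib.MP_085bfa_gt
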